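import Pool.Agent.Helper43.AX.St

/-!
PROJECT AX (MP_b3ce06_al), module FP: the integers prime to `p` are Weyl units.
-/

set_option autoImplicit false

namespace Pool.Agent.Helper82.AX

open Pool.Agent.Helper43.AX
open Pool.Agent.Helper43.GD (Fr Gn)

private theorem charP_of {p : ℕ} {L : Type} [CommRing L] {x : Lˣ} (hF : FF p L x) :
    CharP L p := by
  obtain ⟨q, hq⟩ := CharP.exists L
  have h1 : q ∣ p := (CharP.cast_eq_zero_iff L q p).1 hF.char
  rcases (Nat.dvd_prime hF.pr).1 h1 with h | h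
  · exfalso
    rw [h] at hq
    have h2 : Subsingleton L := CharP.CharOne.subsingleton
    have h3 : Nat.card L = 1 := Nat.card_unique
    have h4 := hF.card
    rw [h3] at h4
    have h5 : 1 < p ^ p := Nat.one_lt_pow hF.pr.ne_zero hF.pr.one_lt
    omega
  · rwa [h] at hq

/-- the power of `x` equal to `x + i` -/
private def X {L : Type} [CommRing L] (p : ℕ) (x : Lˣ) (i : ℕ) : Lˣ := x ^ ((p ^ 2) ^ i)

private theorem X_val {p : ℕ} {L : Type} [CommRing L] {x : Lˣ} (hF : FF p L x) (i : ℕ) :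
    ((X p x i : Lˣ) : L) = (x : L) + (i : L) := by
  have := charP_of hF
  have : Fact p.Prime := ⟨hF.pr⟩
  unfold X
  induction i with
  | zero => simp
  | succ i ih =>
    rw [pow_succ, pow_mul, Units.val_pow_eq_pow_val, ih]
    have h1 : ((x : L) + (i : L)) ^ (p ^ 2) = (x : L) ^ (p ^ 2) + (i : L) ^ (p ^ 2) :=
      add_pow_char_pow (x : L) (i : L) p 2
    have h2 : (i : L) ^ (p ^ 2) = (i : L) := by
      have h3 := map_natCast (iterateFrobenius L p 2) i
      rwa [iterateFrobenius_def] at h3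
    rw [h1, h2, hF.as]
    push_cast
    ring

private theorem nat_case (hP1 : Pool.Agent.Helper43.GD.StP1) (hP2 : Pool.Agent.Helper43.GD.StP2)
    (hCMB : Pool.Agent.Helper43.GD.StCMB) {p : ℕ} {L A : Type} [CommRing L] [Group A] {x : Lˣ}
    (Q : Fr L A) (hF : FF p L x) (hx : x ∈ Q.U) (k : ℕ) (hk : ¬ p ∣ k) :
    Q.In (k : L) := by
  have := charP_of hF
  have hXU : ∀ i, X p x i ∈ Q.U := fun i => Q.U.pow_mem hx _
  have hk0 : (k : L) ≠ 0 := by
    intro h
    exact hk ((CharP.cast_eq_zero_iff L p k).1 h)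
  obtain ⟨mu, hmu⟩ := hF.unit _ hk0
  have hmi : (k : L) * ((mu⁻¹ : Lˣ) : L) = 1 := by
    rw [← hmu, Units.mul_inv]
  -- the single factors
  have hS : ∀ i : ℕ, Q.S mu⁻¹ (X p x (i * k) * (X p x ((i + 1) * k))⁻¹) := by
    intro i
    refine hP1 L A Q mu⁻¹ _ (-1 * (X p x ((i + 1) * k))⁻¹)
      (Q.U.mul_mem (hXU _) (Q.U.inv_mem (hXU _)))
      (Q.U.mul_mem Q.neg (Q.U.inv_mem (hXU _))) ?_
    have h1 := (X p x ((i + 1) * k)).mul_inv
    rw [X_val hF] at h1
    rw [Units.val_mul, Units.val_mul, X_val hF, Units.val_neg, Units.val_one]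
    push_cast at h1 ⊢
    linear_combination (-((mu⁻¹ : Lˣ) : L)) * h1 +
      (((X p x ((i + 1) * k))⁻¹ : Lˣ) : L) * hmi
  have hprod : ∀ N : ℕ, Q.S mu⁻¹ (X p x 0 * (X p x (N * k))⁻¹) := by
    intro N
    induction N with
    | zero =>
      rw [zero_mul, mul_inv_cancel]
      exact Q.S_one _
    | succ N ih =>
      have h1 := Q.S_mul ih (hS N)
      have h2 : X p x 0 * (X p x (N * k))⁻¹ * (X p x (N * k) * (X p x ((N + 1) * k))⁻¹) =
          X p x 0 * (X p x ((N + 1) * k))⁻¹ := by group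
      rwa [h2] at h1
  obtain ⟨N, hN⟩ : ∃ N : ℕ, ((N * k : ℕ) : L) = 1 := by
    have hcop : Nat.Coprime k p := ((Nat.Prime.coprime_iff_not_dvd hF.pr).2 hk).symm
    obtain ⟨N, -, hN⟩ := Nat.exists_mul_mod_eq_one_of_coprime hcop hF.pr.one_lt
    refine ⟨N, ?_⟩
    have h1 : N * k = p * (k * N / p) + 1 := by
      have := Nat.div_add_mod (k * N) p
      rw [hN] at this
      rw [mul_comm N k]
      exact this.symm
    rw [h1]
    push_cast
    rw [hF.char]
    ring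
  have hX1 : X p x (N * k) = X p x 1 := by
    apply Units.ext
    rw [X_val hF, X_val hF, hN]
    simp
  have hX0 : X p x 0 = x := by
    apply Units.ext
    rw [X_val hF]
    simp
  have hσ1 : Q.S mu⁻¹ (x * (X p x 1)⁻¹) := by
    have := hprod N
    rwa [hX1, hX0] at this
  obtain ⟨σ, hσ⟩ : ∃ σ : Lˣ, σ = x * (X p x 1)⁻¹ := ⟨_, rfl⟩
  rw [← hσ] at hσ1
  have hy := (X p x 1).mul_inv
  rw [X_val hF, Nat.cast_one] at hy
  have hσv : 1 - (σ : L) = (((X p x 1)⁻¹ : Lˣ) : L) := by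
    rw [hσ, Units.val_mul]
    linear_combination -hy
  have hσ2 : Q.S (X p x 1 * mu) σ := by
    refine (hP2 L A Q mu⁻¹ σ (X p x 1 * mu) hσ1.1 ?_).1 hσ1
    rw [hσv, Units.val_mul, X_val hF, Nat.cast_one]
    have h1 := mu.mul_inv
    linear_combination ((x : L) + 1) * (((X p x 1)⁻¹ : Lˣ) : L) * h1 + hy
  rw [Q.S_smul_iff (hXU 1)] at hσ2
  have hG : Gn (σ : L) := by
    intro M hM1 hMσ
    have h1 : ∀ y ∈ M, (((X p x 1)⁻¹ : Lˣ) : L) * y ∈ M := by
      intro y hy'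
      have h2 : (((X p x 1)⁻¹ : Lˣ) : L) * y = y - (σ : L) * y := by
        rw [← hσv]
        ring
      rw [h2]
      exact M.sub_mem hy' (hMσ y hy')
    have h3 : ∀ (e : ℕ), ∀ y ∈ M, (((X p x 1)⁻¹ ^ e : Lˣ) : L) * y ∈ M := by
      intro e
      induction e with
      | zero => intro y hy'; simpa using hy'
      | succ e ih =>
        intro y hy'
        rw [pow_succ, Units.val_mul, mul_assoc]
        exact ih _ (h1 y hy')
    obtain ⟨e, he⟩ : ∃ e, p ^ p = e + 2 := by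
      have h5 : 2 ≤ p ^ p := Nat.one_lt_pow hF.pr.ne_zero hF.pr.one_lt
      exact ⟨p ^ p - 2, by omega⟩
    have h4 : ((X p x 1)⁻¹) ^ e = X p x 1 := by
      have h5 : ((X p x 1)⁻¹) ^ (e + 2) = (X p x 1)⁻¹ := by
        apply Units.ext
        rw [← he, Units.val_pow_eq_pow_val]
        exact hF.frob _
      have h6 : ((X p x 1)⁻¹) ^ e * (X p x 1)⁻¹ = 1 := by
        have h7 : ((X p x 1)⁻¹) ^ e * (X p x 1)⁻¹ * (X p x 1)⁻¹ = (X p x 1)⁻¹ := by
          rw [mul_assoc, ← pow_two, ← pow_add]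
          exact h5
        exact mul_eq_right.1 h7
      exact mul_inv_eq_one.1 h6
    apply hF.gn M hM1
    intro y hy'
    have h8 := h3 e y hy'
    rw [h4, X_val hF, Nat.cast_one] at h8
    have h9 : (x : L) * y = ((x : L) + 1) * y - y := by ring
    rw [h9]
    exact M.sub_mem h8 hy'
  have hU : mu⁻¹ ∈ Q.U := by
    refine hCMB L A Q mu⁻¹ σ σ hσ1 ?_ ?_ hG
    · rw [inv_inv]
      exact hσ2
    · rw [hσv]
      exact (Units.isUnit _).mul (Units.isUnit _)
  refine ⟨mu, ?_, hmu⟩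
  have := Q.U.inv_mem hU
  rwa [inv_inv] at this

theorem hFP (hP1 : Pool.Agent.Helper43.GD.StP1) (hP2 : Pool.Agent.Helper43.GD.StP2)
    (hCMB : Pool.Agent.Helper43.GD.StCMB) : StFP := by
  intro p L A _ _ x Q hF hx m hm
  have hp0 : (p : ℤ) ≠ 0 := by
    have := hF.pr.ne_zero
    exact_mod_cast this
  have h0 : 0 ≤ m % (p : ℤ) := Int.emod_nonneg _ hp0
  obtain ⟨k, hk⟩ := Int.eq_ofNat_of_zero_le h0
  have h1 : m = (k : ℤ) + (p : ℤ) * (m / p) := by
    rw [← hk]
    exact (Int.emod_add_mul_ediv m p).symm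
  have h2 : ((k : ℕ) : L) = (m : L) := by
    rw [h1]
    push_cast
    rw [hF.char]
    ring
  rw [← h2]
  refine nat_case hP1 hP2 hCMB Q hF hx k ?_
  intro hd
  apply hm
  rw [h1]
  exact dvd_add (Int.natCast_dvd_natCast.2 hd) (dvd_mul_right _ _)

end Pool.Agent.Helper82.AX
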